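import Pool.Agent.BCS.Stmts

/-!
# Squad BCS, row SCC: scalar curvature of the metrics of the main theorem
-/

set_option autoImplicit false

noncomputable section

open scoped ContDiff Topology
open Set

namespace Pool.Agent.BCS.H23

open Pool.Agent.SecondKind (Coord pd inv christoffel ricci)
open Pool.Agent.RLim.H58 (dg)

variable {m : ℕ}

/-- directional derivative -/
def Dv (v : ℂ × (Fin m → ℝ)) (H : ℂ × (Fin m → ℝ) → ℝ) (p : ℂ × (Fin m → ℝ)) : ℝ :=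
  fderiv ℝ H p v

theorem Dv_smooth {v : ℂ × (Fin m → ℝ)} {H : ℂ × (Fin m → ℝ) → ℝ} (h : ContDiff ℝ ∞ H) :
    ContDiff ℝ ∞ (Dv v H) := by
  have h1 : ContDiff ℝ ∞ (fderiv ℝ H) := h.fderiv_right (m := ∞) (by simp)
  exact h1.clm_apply contDiff_const

/-- the coordinates -/
def LL : (Fin (m + 2) → ℝ) →L[ℝ] ℂ × (Fin m → ℝ) :=
  ((ContinuousLinearMap.proj (R := ℝ) (φ := fun _ : Fin (m + 2) => ℝ) 0).smulRight (1 : ℂ) +
    (ContinuousLinearMap.proj (R := ℝ) (φ := fun _ : Fin (m + 2) => ℝ) 1).smulRight Complex.I).prod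
  (ContinuousLinearMap.pi fun i : Fin m =>
    ContinuousLinearMap.proj (R := ℝ) (φ := fun _ : Fin (m + 2) => ℝ) i.succ.succ)

theorem LL_apply (y : Fin (m + 2) → ℝ) : LL y = (pr y, tl y) := by
  refine Prod.ext ?_ ?_
  · apply Complex.ext
    · simp [LL, pr]
    · simp [LL, pr]
  · funext i
    simp [LL, tl]

theorem LL_zero : LL (Pi.single (0 : Fin (m + 2)) (1 : ℝ)) = ((1 : ℂ), (0 : Fin m → ℝ)) := by
  rw [LL_apply]
  refine Prod.ext ?_ ?_
  · apply Complex.ext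
    · simp [pr]
    · simp [pr]
  · funext i
    simp [tl]

theorem LL_one : LL (Pi.single (1 : Fin (m + 2)) (1 : ℝ)) = (Complex.I, (0 : Fin m → ℝ)) := by
  rw [LL_apply]
  refine Prod.ext ?_ ?_
  · apply Complex.ext
    · simp [pr]
    · simp [pr]
  · funext i
    have h : i.succ.succ ≠ (1 : Fin (m + 2)) := by
      intro h
      have := congrArg Fin.val h
      simp at this
    simp [tl, Pi.single_apply, h]

theorem LL_succ (i : Fin m) : LL (Pi.single (i.succ.succ : Fin (m + 2)) (1 : ℝ)) =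
    ((0 : ℂ), (Pi.single i 1 : Fin m → ℝ)) := by
  rw [LL_apply]
  have h : (1 : Fin (m + 2)) ≠ i.succ.succ := by
    intro h
    have := congrArg Fin.val h
    simp at this
  have h0 : (0 : Fin (m + 2)) ≠ i.succ.succ := by
    intro h
    have := congrArg Fin.val h
    simp at this
  refine Prod.ext ?_ ?_
  · apply Complex.ext
    · simp [pr, Pi.single_apply, h0]
    · simp [pr, Pi.single_apply, h]
  · funext j
    simp [tl, Pi.single_apply, Fin.succ_inj]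

theorem pd_hat {H : ℂ × (Fin m → ℝ) → ℝ} (h : ContDiff ℝ ∞ H) (k : Fin (m + 2)) :
    pd k (fun y => H (LL y)) = fun y => Dv (LL (Pi.single k 1)) H (LL y) := by
  funext y
  have h1 : DifferentiableAt ℝ H (LL y) := (h.differentiable (by simp)) _
  have h2 : HasFDerivAt (fun y => H (LL y)) ((fderiv ℝ H (LL y)).comp LL) y :=
    h1.hasFDerivAt.comp y (LL.hasFDerivAt)
  unfold pd Dv
  rw [h2.fderiv]
  rfl

theorem slice_dx {H : ℂ × (Fin m → ℝ) → ℝ} (h : ContDiff ℝ ∞ H) (t : Fin m → ℝ) :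
    dx (fun z => H (z, t)) = fun z => Dv ((1 : ℂ), (0 : Fin m → ℝ)) H (z, t) := by
  funext z
  have h1 : DifferentiableAt ℝ H (z, t) := (h.differentiable (by simp)) _
  have h2 := h1.hasFDerivAt.comp z (hasFDerivAt_prodMk_left (𝕜 := ℝ) z t)
  unfold dx Dv
  have h3 : fderiv ℝ (fun z => H (z, t)) z = _ := h2.fderiv
  rw [h3]
  rfl

theorem slice_dy {H : ℂ × (Fin m → ℝ) → ℝ} (h : ContDiff ℝ ∞ H) (t : Fin m → ℝ) :
    dy (fun z => H (z, t)) = fun z => Dv (Complex.I, (0 : Fin m → ℝ)) H (z, t) := by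
  funext z
  have h1 : DifferentiableAt ℝ H (z, t) := (h.differentiable (by simp)) _
  have h2 := h1.hasFDerivAt.comp z (hasFDerivAt_prodMk_left (𝕜 := ℝ) z t)
  unfold dy Dv
  have h3 : fderiv ℝ (fun z => H (z, t)) z = _ := h2.fderiv
  rw [h3]
  rfl

theorem slice_pd {H : ℂ × (Fin m → ℝ) → ℝ} (h : ContDiff ℝ ∞ H) (z : ℂ) (i : Fin m) :
    pd i (fun t => H (z, t)) = fun t => Dv ((0 : ℂ), (Pi.single i 1 : Fin m → ℝ)) H (z, t) := by
  funext t
  have h1 : DifferentiableAt ℝ H (z, t) := (h.differentiable (by simp)) _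
  have h2 := h1.hasFDerivAt.comp t (hasFDerivAt_prodMk_right (𝕜 := ℝ) z t)
  unfold pd Dv
  have h3 : fderiv ℝ (fun t => H (z, t)) t = _ := h2.fderiv
  rw [h3]
  rfl

theorem Dv_lin {ψ : ℂ → ℝ} (hψ : ContDiff ℝ ∞ ψ) {X : ℂ × (Fin m → ℝ) → ℝ}
    (hX : ContDiff ℝ ∞ X) (a : ℝ) (v : ℂ × (Fin m → ℝ)) :
    Dv v (fun p => ψ p.1 + a * X p) = fun p => fderiv ℝ ψ p.1 v.1 + a * Dv v X p := by
  funext p
  have h1 : HasFDerivAt ψ (fderiv ℝ ψ p.1) p.1 := ((hψ.differentiable (by simp)) _).hasFDerivAt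
  have h2 : HasFDerivAt X (fderiv ℝ X p) p := ((hX.differentiable (by simp)) _).hasFDerivAt
  have h3 : HasFDerivAt (fun p : ℂ × (Fin m → ℝ) => ψ p.1)
      ((fderiv ℝ ψ p.1).comp (ContinuousLinearMap.fst ℝ ℂ (Fin m → ℝ))) p :=
    h1.comp p hasFDerivAt_fst
  have h4 := h3.add (h2.const_mul a)
  unfold Dv
  have h5 : fderiv ℝ (fun p => ψ p.1 + a * X p) p = _ := h4.fderiv
  rw [h5]
  rfl

theorem dir_smooth {ψ : ℂ → ℝ} (hψ : ContDiff ℝ ∞ ψ) (w : ℂ) :
    ContDiff ℝ ∞ (fun z => fderiv ℝ ψ z w) := by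
  have h1 : ContDiff ℝ ∞ (fderiv ℝ ψ) := hψ.fderiv_right (m := ∞) (by simp)
  exact h1.clm_apply contDiff_const

theorem first {ψ : ℂ → ℝ} (hψ : ContDiff ℝ ∞ ψ) {X : ℂ × (Fin m → ℝ) → ℝ}
    (hX : ContDiff ℝ ∞ X) (a : ℝ) (k : Fin (m + 2)) :
    pd k (fun y => ψ (LL y).1 + a * X (LL y)) =
      fun y => fderiv ℝ ψ (LL y).1 (LL (Pi.single k 1)).1 + a * Dv (LL (Pi.single k 1)) X (LL y) := by
  have hS : ContDiff ℝ ∞ (fun p : ℂ × (Fin m → ℝ) => ψ p.1 + a * X p) :=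
    (hψ.comp contDiff_fst).add (contDiff_const.mul hX)
  have h1 := pd_hat hS k
  rw [Dv_lin hψ hX] at h1
  exact h1

theorem second {ψ : ℂ → ℝ} (hψ : ContDiff ℝ ∞ ψ) {X : ℂ × (Fin m → ℝ) → ℝ}
    (hX : ContDiff ℝ ∞ X) (a : ℝ) (k : Fin (m + 2)) (y : Fin (m + 2) → ℝ) :
    pd k (pd k (fun y => ψ (LL y).1 + a * X (LL y))) y =
      fderiv ℝ (fun z => fderiv ℝ ψ z (LL (Pi.single k 1)).1) (LL y).1 (LL (Pi.single k 1)).1 +
        a * Dv (LL (Pi.single k 1)) (Dv (LL (Pi.single k 1)) X) (LL y) := by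
  rw [first hψ hX, first (dir_smooth hψ _) (Dv_smooth hX)]

/-! ### algebra -/

theorem alg0 (a aa : ℝ) (c cc : Fin m → ℝ) (D1 D2 : Fin (m + 2) → ℝ) (h0 : D1 0 = a)
    (h1 : D1 1 = a) (h2 : ∀ j : Fin m, D1 j.succ.succ = c j) (g1 : D2 1 = aa)
    (g2 : ∀ j : Fin m, D2 j.succ.succ = cc j) :
    (∑ j ∈ Finset.univ.erase (0 : Fin (m + 2)), (2 * D2 j - 2 * D1 0 * D1 j + D1 j ^ 2)) +
      (∑ j ∈ Finset.univ.erase (0 : Fin (m + 2)), D1 j) ^ 2 =
    2 * aa + 2 * ∑ j, cc j + ∑ j, c j ^ 2 + (∑ j, c j) ^ 2 := by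
  rw [Finset.sum_erase_eq_sub (Finset.mem_univ _), Finset.sum_erase_eq_sub (Finset.mem_univ _),
    Fin.sum_univ_succ, Fin.sum_univ_succ, Fin.sum_univ_succ, Fin.sum_univ_succ]
  have e1 : Fin.succ (0 : Fin (m + 1)) = 1 := rfl
  simp only [e1, h0, h1, h2, g1, g2]
  rw [Finset.sum_add_distrib, Finset.sum_sub_distrib, ← Finset.mul_sum, ← Finset.mul_sum]
  ring

theorem alg1 (a aa : ℝ) (c cc : Fin m → ℝ) (D1 D2 : Fin (m + 2) → ℝ) (h0 : D1 0 = a)
    (h1 : D1 1 = a) (h2 : ∀ j : Fin m, D1 j.succ.succ = c j) (g1 : D2 0 = aa)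
    (g2 : ∀ j : Fin m, D2 j.succ.succ = cc j) :
    (∑ j ∈ Finset.univ.erase (1 : Fin (m + 2)), (2 * D2 j - 2 * D1 1 * D1 j + D1 j ^ 2)) +
      (∑ j ∈ Finset.univ.erase (1 : Fin (m + 2)), D1 j) ^ 2 =
    2 * aa + 2 * ∑ j, cc j + ∑ j, c j ^ 2 + (∑ j, c j) ^ 2 := by
  rw [Finset.sum_erase_eq_sub (Finset.mem_univ _), Finset.sum_erase_eq_sub (Finset.mem_univ _),
    Fin.sum_univ_succ, Fin.sum_univ_succ, Fin.sum_univ_succ, Fin.sum_univ_succ]
  have e1 : Fin.succ (0 : Fin (m + 1)) = 1 := rfl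
  simp only [e1, h0, h1, h2, g1, g2]
  rw [Finset.sum_add_distrib, Finset.sum_sub_distrib, ← Finset.mul_sum, ← Finset.mul_sum]
  ring

theorem alg2 (i : Fin m) (α x xx : ℝ) (β : Fin m → ℝ) (D1 D2 : Fin (m + 2) → ℝ)
    (h0 : D1 0 = α * x) (h1 : D1 1 = α * x) (h2 : ∀ j : Fin m, D1 j.succ.succ = β j * x)
    (g0 : D2 0 = α * xx) (g1 : D2 1 = α * xx) (g2 : ∀ j : Fin m, D2 j.succ.succ = β j * xx) :
    (∑ j ∈ Finset.univ.erase (i.succ.succ : Fin (m + 2)),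
        (2 * D2 j - 2 * D1 i.succ.succ * D1 j + D1 j ^ 2)) +
      (∑ j ∈ Finset.univ.erase (i.succ.succ : Fin (m + 2)), D1 j) ^ 2 =
    2 * kap α β i * xx + lam α β i * x ^ 2 := by
  rw [Finset.sum_erase_eq_sub (Finset.mem_univ _), Finset.sum_erase_eq_sub (Finset.mem_univ _),
    Fin.sum_univ_succ, Fin.sum_univ_succ, Fin.sum_univ_succ, Fin.sum_univ_succ]
  have e1 : Fin.succ (0 : Fin (m + 1)) = 1 := rfl
  simp only [e1, h0, h1, h2, g0, g1, g2]
  have s1 : ∑ j, (2 * (β j * xx) - 2 * (β i * x) * (β j * x) + (β j * x) ^ 2) =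
      2 * xx * ∑ j, β j - 2 * β i * x ^ 2 * ∑ j, β j + x ^ 2 * ∑ j, β j ^ 2 := by
    rw [Finset.mul_sum, Finset.mul_sum, Finset.mul_sum, ← Finset.sum_sub_distrib,
      ← Finset.sum_add_distrib]
    refine Finset.sum_congr rfl fun j _ => ?_
    ring
  have s2 : ∑ j, β j * x = (∑ j, β j) * x := (Finset.sum_mul _ _ _).symm
  rw [s1, s2]
  unfold lam kap
  ring

theorem scc (hSCD : ScdStmt) : SccStmt := by
  intro m φ f χ α β hφ hf hχ y
  obtain ⟨X, hXd⟩ : ∃ X : ℂ × (Fin m → ℝ) → ℝ, X = fun p => χ p.1 p.2 := ⟨_, rfl⟩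
  have hX : ContDiff ℝ ∞ X := by rw [hXd]; exact hχ
  have hsl : ∀ z : ℂ, χ z = fun t => X (z, t) := by
    intro z
    rw [hXd]
  have hslz : ∀ t : Fin m → ℝ, (fun z => χ z t) = fun z => X (z, t) := by
    intro t
    rw [hXd]
  have u0 : uu φ f χ α β 0 = fun y => φ (LL y).1 + α * X (LL y) := by
    funext y
    rw [LL_apply, hXd]
    rfl
  have u1 : uu φ f χ α β 1 = fun y => φ (LL y).1 + α * X (LL y) := by
    funext y
    rw [LL_apply, hXd]
    rfl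
  have u2 : ∀ j : Fin m, uu φ f χ α β j.succ.succ = fun y => f j (LL y).1 + β j * X (LL y) := by
    intro j
    funext y
    rw [LL_apply, hXd]
    rfl
  have hsm : ∀ ψ : ℂ → ℝ, ContDiff ℝ ∞ ψ → ∀ a : ℝ,
      ContDiff ℝ ∞ (fun y : Fin (m + 2) → ℝ => ψ (LL y).1 + a * X (LL y)) := by
    intro ψ hψ a
    exact (hψ.comp (contDiff_fst.comp LL.contDiff)).add (contDiff_const.mul (hX.comp LL.contDiff))
  have hus : ∀ k, ContDiff ℝ ∞ (uu φ f χ α β k) := by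
    intro k
    refine Fin.cases ?_ (fun k => ?_) k
    · rw [u0]
      exact hsm φ hφ α
    · refine Fin.cases ?_ (fun j => ?_) k
      · have e1 : Fin.succ (0 : Fin (m + 1)) = 1 := rfl
        rw [e1, u1]
        exact hsm φ hφ α
      · rw [u2]
        exact hsm (f j) (hf j) (β j)
  rw [hSCD (m + 2) (uu φ f χ α β) hus y]
  obtain ⟨z, hz⟩ : ∃ z, z = pr y := ⟨_, rfl⟩
  obtain ⟨t, ht⟩ : ∃ t, t = tl y := ⟨_, rfl⟩
  have hL : LL y = (z, t) := by rw [LL_apply, hz, ht]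
  rw [← hz, ← ht]
  -- the three kinds of derivatives
  have p1 : ∀ (ψ : ℂ → ℝ), ContDiff ℝ ∞ ψ → ∀ (a : ℝ) (k : Fin (m + 2)),
      pd k (fun y => ψ (LL y).1 + a * X (LL y)) y =
      fderiv ℝ ψ z (LL (Pi.single k 1)).1 + a * Dv (LL (Pi.single k 1)) X (z, t) := by
    intro ψ hψ a k
    rw [first hψ hX]
    simp only [hL]
  have p2 : ∀ (ψ : ℂ → ℝ), ContDiff ℝ ∞ ψ → ∀ (a : ℝ) (k : Fin (m + 2)),
      pd k (pd k (fun y => ψ (LL y).1 + a * X (LL y))) y =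
      fderiv ℝ (fun z => fderiv ℝ ψ z (LL (Pi.single k 1)).1) z (LL (Pi.single k 1)).1 +
        a * Dv (LL (Pi.single k 1)) (Dv (LL (Pi.single k 1)) X) (z, t) := by
    intro ψ hψ a k
    rw [second hψ hX, hL]
  have zero1 : ∀ ψ : ℂ → ℝ, fderiv ℝ ψ z (0 : ℂ) = 0 := fun ψ => map_zero _
  -- derivatives of `χ`
  have x0 : Dv ((1 : ℂ), (0 : Fin m → ℝ)) X (z, t) = dx (fun z => χ z t) z := by
    rw [hslz, slice_dx hX]
  have x00 : Dv ((1 : ℂ), (0 : Fin m → ℝ)) (Dv ((1 : ℂ), (0 : Fin m → ℝ)) X) (z, t) =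
      dx (dx (fun z => χ z t)) z := by
    rw [hslz, slice_dx hX, slice_dx (Dv_smooth hX)]
  have y0 : Dv (Complex.I, (0 : Fin m → ℝ)) X (z, t) = dy (fun z => χ z t) z := by
    rw [hslz, slice_dy hX]
  have y00 : Dv (Complex.I, (0 : Fin m → ℝ)) (Dv (Complex.I, (0 : Fin m → ℝ)) X) (z, t) =
      dy (dy (fun z => χ z t)) z := by
    rw [hslz, slice_dy hX, slice_dy (Dv_smooth hX)]
  have t0 : ∀ i : Fin m, Dv ((0 : ℂ), (Pi.single i 1 : Fin m → ℝ)) X (z, t) = pd i (χ z) t := by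
    intro i
    rw [hsl, slice_pd hX]
  have t00 : ∀ i : Fin m, Dv ((0 : ℂ), (Pi.single i 1 : Fin m → ℝ))
      (Dv ((0 : ℂ), (Pi.single i 1 : Fin m → ℝ)) X) (z, t) = pd i (pd i (χ z)) t := by
    intro i
    rw [hsl, slice_pd hX, slice_pd (Dv_smooth hX)]
  -- the brackets
  have B0 := alg0 (m := m) (dx φ z + α * dx (fun z => χ z t) z)
    (dx (dx φ) z + α * dx (dx (fun z => χ z t)) z)
    (fun j => dx (f j) z + β j * dx (fun z => χ z t) z)
    (fun j => dx (dx (f j)) z + β j * dx (dx (fun z => χ z t)) z)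
    (fun k => pd 0 (uu φ f χ α β k) y) (fun k => pd 0 (pd 0 (uu φ f χ α β k)) y)
    (by
      show pd 0 (uu φ f χ α β 0) y = _
      rw [u0, p1 φ hφ α 0, LL_zero, x0]
      rfl)
    (by
      show pd 0 (uu φ f χ α β 1) y = _
      rw [u1, p1 φ hφ α 0, LL_zero, x0]
      rfl)
    (by
      intro j
      show pd 0 (uu φ f χ α β j.succ.succ) y = _
      rw [u2, p1 (f j) (hf j) (β j) 0, LL_zero, x0]
      rfl)
    (by
      show pd 0 (pd 0 (uu φ f χ α β 1)) y = _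
      rw [u1, p2 φ hφ α 0, LL_zero, x00]
      rfl)
    (by
      intro j
      show pd 0 (pd 0 (uu φ f χ α β j.succ.succ)) y = _
      rw [u2, p2 (f j) (hf j) (β j) 0, LL_zero, x00]
      rfl)
  have B1 := alg1 (m := m) (dy φ z + α * dy (fun z => χ z t) z)
    (dy (dy φ) z + α * dy (dy (fun z => χ z t)) z)
    (fun j => dy (f j) z + β j * dy (fun z => χ z t) z)
    (fun j => dy (dy (f j)) z + β j * dy (dy (fun z => χ z t)) z)
    (fun k => pd 1 (uu φ f χ α β k) y) (fun k => pd 1 (pd 1 (uu φ f χ α β k)) y)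
    (by
      show pd 1 (uu φ f χ α β 0) y = _
      rw [u0, p1 φ hφ α 1, LL_one, y0]
      rfl)
    (by
      show pd 1 (uu φ f χ α β 1) y = _
      rw [u1, p1 φ hφ α 1, LL_one, y0]
      rfl)
    (by
      intro j
      show pd 1 (uu φ f χ α β j.succ.succ) y = _
      rw [u2, p1 (f j) (hf j) (β j) 1, LL_one, y0]
      rfl)
    (by
      show pd 1 (pd 1 (uu φ f χ α β 0)) y = _
      rw [u0, p2 φ hφ α 1, LL_one, y00]
      rfl)
    (by
      intro j
      show pd 1 (pd 1 (uu φ f χ α β j.succ.succ)) y = _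
      rw [u2, p2 (f j) (hf j) (β j) 1, LL_one, y00]
      rfl)
  have B2 : ∀ i : Fin m, _ := fun i : Fin m => alg2 (m := m) i α (pd i (χ z) t)
    (pd i (pd i (χ z)) t) β
    (fun k => pd i.succ.succ (uu φ f χ α β k) y)
    (fun k => pd i.succ.succ (pd i.succ.succ (uu φ f χ α β k)) y)
    (by
      show pd i.succ.succ (uu φ f χ α β 0) y = _
      rw [u0, p1 φ hφ α _, LL_succ, t0, zero1, zero_add])
    (by
      show pd i.succ.succ (uu φ f χ α β 1) y = _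
      rw [u1, p1 φ hφ α _, LL_succ, t0, zero1, zero_add])
    (by
      intro j
      show pd i.succ.succ (uu φ f χ α β j.succ.succ) y = _
      rw [u2, p1 (f j) (hf j) (β j) _, LL_succ, t0, zero1, zero_add])
    (by
      show pd i.succ.succ (pd i.succ.succ (uu φ f χ α β 0)) y = _
      rw [u0, p2 φ hφ α _, LL_succ, t00, zero1, zero_add])
    (by
      show pd i.succ.succ (pd i.succ.succ (uu φ f χ α β 1)) y = _
      rw [u1, p2 φ hφ α _, LL_succ, t00, zero1, zero_add])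
    (by
      intro j
      show pd i.succ.succ (pd i.succ.succ (uu φ f χ α β j.succ.succ)) y = _
      rw [u2, p2 (f j) (hf j) (β j) _, LL_succ, t00, zero1, zero_add])
  have v0 : uu φ f χ α β 0 y = φ z + α * χ z t := by
    rw [u0]
    simp only [hL, hXd]
  have v1 : uu φ f χ α β 1 y = φ z + α * χ z t := by
    rw [u1]
    simp only [hL, hXd]
  have v2 : ∀ j : Fin m, uu φ f χ α β j.succ.succ y = f j z + β j * χ z t := by
    intro j
    rw [u2]
    simp only [hL, hXd]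
  rw [Fin.sum_univ_succ, Fin.sum_univ_succ]
  have e1 : Fin.succ (0 : Fin (m + 1)) = 1 := rfl
  rw [e1]
  rw [B0, B1, v0, v1]
  have hs : ∑ i : Fin m, Real.exp (-(2 * uu φ f χ α β i.succ.succ y)) *
      ((∑ j ∈ Finset.univ.erase i.succ.succ, (2 * pd i.succ.succ (pd i.succ.succ (uu φ f χ α β j)) y -
        2 * pd i.succ.succ (uu φ f χ α β i.succ.succ) y * pd i.succ.succ (uu φ f χ α β j) y
        + pd i.succ.succ (uu φ f χ α β j) y ^ 2))
      + (∑ j ∈ Finset.univ.erase i.succ.succ, pd i.succ.succ (uu φ f χ α β j) y) ^ 2) =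
      ∑ i : Fin m, Real.exp (-(2 * (f i z + β i * χ z t))) *
        (2 * kap α β i * pd i (pd i (χ z)) t + lam α β i * pd i (χ z) t ^ 2) := by
    refine Finset.sum_congr rfl fun i _ => ?_
    rw [B2 i, v2 i]
  rw [hs]
  have ee : Real.exp (2 * φ z + 2 * α * χ z t) * Real.exp (-(2 * (φ z + α * χ z t))) = 1 := by
    rw [← Real.exp_add]
    have : 2 * φ z + 2 * α * χ z t + -(2 * (φ z + α * χ z t)) = 0 := by ring
    rw [this, Real.exp_zero]
  have es : Real.exp (2 * φ z + 2 * α * χ z t) *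
      ∑ i : Fin m, Real.exp (-(2 * (f i z + β i * χ z t))) *
        (2 * kap α β i * pd i (pd i (χ z)) t + lam α β i * pd i (χ z) t ^ 2) =
      ∑ i, Real.exp (2 * φ z + 2 * α * χ z t - 2 * f i z - 2 * β i * χ z t) *
      (2 * kap α β i * pd i (pd i (χ z)) t + lam α β i * pd i (χ z) t ^ 2) := by
    rw [Finset.mul_sum]
    refine Finset.sum_congr rfl fun i _ => ?_
    rw [← mul_assoc, ← Real.exp_add]
    congr 2
    ring
  unfold sc
  rw [← es]
  have q1 : ∑ j, (dx (dx (f j)) z + β j * dx (dx (fun z => χ z t)) z) =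
      ∑ j, dx (dx (f j)) z + (∑ j, β j) * dx (dx (fun z => χ z t)) z := by
    rw [Finset.sum_add_distrib, Finset.sum_mul]
  have q2 : ∑ j, (dy (dy (f j)) z + β j * dy (dy (fun z => χ z t)) z) =
      ∑ j, dy (dy (f j)) z + (∑ j, β j) * dy (dy (fun z => χ z t)) z := by
    rw [Finset.sum_add_distrib, Finset.sum_mul]
  have q3 : ∑ j, lap (f j) z = ∑ j, dx (dx (f j)) z + ∑ j, dy (dy (f j)) z := by
    rw [← Finset.sum_add_distrib]
    rfl
  have q4 : ∑ j, ((dx (f j) z + β j * dx (fun z => χ z t) z) ^ 2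
      + (dy (f j) z + β j * dy (fun z => χ z t) z) ^ 2) =
      ∑ j, (dx (f j) z + β j * dx (fun z => χ z t) z) ^ 2 +
      ∑ j, (dy (f j) z + β j * dy (fun z => χ z t) z) ^ 2 := Finset.sum_add_distrib
  rw [q1, q2, q3, q4]
  have q5 : lap φ z = dx (dx φ) z + dy (dy φ) z := rfl
  have q6 : lap (fun z => χ z t) z = dx (dx (fun z => χ z t)) z + dy (dy (fun z => χ z t)) z := rfl
  rw [q5, q6]
  generalize Real.exp (2 * φ z + 2 * α * χ z t) = E at *
  generalize Real.exp (-(2 * (φ z + α * χ z t))) = E' at *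
  generalize (∑ i : Fin m, Real.exp (-(2 * (f i z + β i * χ z t))) *
        (2 * kap α β i * pd i (pd i (χ z)) t + lam α β i * pd i (χ z) t ^ 2)) = R at *
  linear_combination (-(2 * (dx (dx φ) z + α * dx (dx (fun z => χ z t)) z) +
    2 * (∑ j, dx (dx (f j)) z + (∑ j, β j) * dx (dx (fun z => χ z t)) z) +
    ∑ j, (dx (f j) z + β j * dx (fun z => χ z t) z) ^ 2 +
    (∑ j, (dx (f j) z + β j * dx (fun z => χ z t) z)) ^ 2) -
    (2 * (dy (dy φ) z + α * dy (dy (fun z => χ z t)) z) +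
    2 * (∑ j, dy (dy (f j)) z + (∑ j, β j) * dy (dy (fun z => χ z t)) z) +
    ∑ j, (dy (f j) z + β j * dy (fun z => χ z t) z) ^ 2 +
    (∑ j, (dy (f j) z + β j * dy (fun z => χ z t) z)) ^ 2)) * ee

end Pool.Agent.BCS.H23
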